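import Pool.Agent.H45.PS.BLKP

/-! Small norms in a window with all parameters chosen, uniformly in the size of the solutions. -/

set_option autoImplicit false

namespace Pool.Agent.H45.PU

open Polynomial Pool.Agent.Q276.PL Pool.Agent.H45.PF Pool.Agent.H45.NF Pool.Agent.H45.PS Filter
  Topology

/-- the sum of the four terms -/
theorem params3 {C l w σ m Y P e X : ℝ} (hC : 1 ≤ C) (hl : 1 ≤ l) (hσ1 : 1 ≤ σ) (hm1 : 1 ≤ m)
    (he0 : 0 < e) (he1 : e ≤ 1) {z : ℝ} (hz : z = Real.exp (w / 8) / 2) (hw16 : 16 ≤ w)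
    (h1 : 12 * σ * C * m ^ 6 * l ^ 4 ≤ Real.exp (w / 8))
    (h2 : 84 * σ * C * m ^ 3 * l ^ 2 ≤ Real.exp (w / 32))
    (h3 : 288 * σ * l ≤ Real.exp (w / 64))
    (h4 : C * m ^ 3 ≤ l ^ 4) (hP : P = l ^ 5)
    (h5 : X + 43 ≤ e * w / 1600)
    (hY : Y ≤ Real.exp (-(e * ((w / 16 - 1) / 10))) * Real.exp X) :
    (2 * σ * l + 1) * (C * Real.exp (w / 4) * Real.exp (w / 2) * (m ^ 2 * l) ^ 3 +
      (C * m ^ 3 * l * (2 * Real.exp w / √z + 1) + 4 * Real.exp w * (√(√z))⁻¹ *
        Real.exp (C * m ^ 3 * l / P))) + 4 * Real.exp w * Y ≤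
      Real.exp w * Real.exp (-(e * w / 400)) := by
  have hwe : Real.exp (-(w / 400)) ≤ Real.exp (-(e * w / 400)) := by
    apply Real.exp_le_exp.2
    nlinarith
  have hl0 : 0 < l := by linarith
  have hm0 : 0 < m := by linarith
  have hC0 : 0 < C := by linarith
  have hσ0 : 0 < σ := by linarith
  have hsig : 2 * σ * l + 1 ≤ 3 * σ * l := by nlinarith
  have hew : 0 < Real.exp w := Real.exp_pos w
  have hexp1 : 2.7 < Real.exp 1 := by have := Real.exp_one_gt_d9; linarith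
  have hexp1' : Real.exp 1 < 2.72 := by have := Real.exp_one_lt_d9; linarith
  -- the square roots
  have hsz : Real.exp (w / 16 - 1) ≤ √z := by
    apply Real.le_sqrt_of_sq_le
    rw [hz, ← Real.exp_nat_mul]
    push_cast
    have h6 : Real.exp (w / 8) = Real.exp (2 * (w / 16 - 1)) * Real.exp 2 := by
      rw [← Real.exp_add]
      congr 1
      ring
    have h7 : Real.exp 2 = Real.exp 1 * Real.exp 1 := by
      rw [← Real.exp_add]
      norm_num
    rw [h6, h7]
    have h8 : 0 < Real.exp (2 * (w / 16 - 1)) := Real.exp_pos _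
    have h9 : 2 ≤ Real.exp 1 * Real.exp 1 := by nlinarith
    rw [le_div_iff₀ (by norm_num)]
    exact mul_le_mul_of_nonneg_left h9 h8.le
  have hsz0 : 0 < √z := lt_of_lt_of_le (Real.exp_pos _) hsz
  have hssz : Real.exp (w / 32 - 1 / 2) ≤ √(√z) := by
    apply Real.le_sqrt_of_sq_le
    refine le_trans (le_of_eq ?_) hsz
    rw [← Real.exp_nat_mul]
    congr 1
    push_cast
    ring
  have hY0 := hY
  -- term 1
  have t1 : (2 * σ * l + 1) * (C * Real.exp (w / 4) * Real.exp (w / 2) * (m ^ 2 * l) ^ 3) ≤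
      1 / 4 * (Real.exp w * Real.exp (-(w / 400))) := by
    have a1 : (2 * σ * l + 1) * (C * Real.exp (w / 4) * Real.exp (w / 2) * (m ^ 2 * l) ^ 3) ≤
        (3 * σ * l) * (C * Real.exp (w / 4) * Real.exp (w / 2) * (m ^ 2 * l) ^ 3) :=
      mul_le_mul_of_nonneg_right hsig (by positivity)
    have a2 : (3 * σ * l) * (C * Real.exp (w / 4) * Real.exp (w / 2) * (m ^ 2 * l) ^ 3) =
        1 / 4 * (12 * σ * C * m ^ 6 * l ^ 4) * (Real.exp (w / 4) * Real.exp (w / 2)) := by ring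
    have a3 : Real.exp (w / 8) * (Real.exp (w / 4) * Real.exp (w / 2)) ≤
        Real.exp w * Real.exp (-(w / 400)) := by
      rw [← Real.exp_add, ← Real.exp_add, ← Real.exp_add]
      exact Real.exp_le_exp.2 (by linarith)
    have a4 : 0 < Real.exp (w / 4) * Real.exp (w / 2) := by positivity
    have a5 := mul_le_mul_of_nonneg_right h1 a4.le
    rw [a2] at a1
    linarith
  -- term 2
  have t2 : (2 * σ * l + 1) * (C * m ^ 3 * l * (2 * Real.exp w / √z + 1)) ≤
      1 / 4 * (Real.exp w * Real.exp (-(w / 400))) := by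
    have a1 : 2 * Real.exp w / √z + 1 ≤ 7 * Real.exp (w - w / 16) := by
      have b1 : 2 * Real.exp w / √z ≤ 2 * Real.exp w / Real.exp (w / 16 - 1) :=
        div_le_div_of_nonneg_left (by positivity) (Real.exp_pos _) hsz
      have b2 : 2 * Real.exp w / Real.exp (w / 16 - 1) = 2 * Real.exp 1 * Real.exp (w - w / 16) := by
        rw [div_eq_iff (Real.exp_pos _).ne', mul_assoc, mul_assoc, ← Real.exp_add, ← Real.exp_add]
        congr 2
        ring
      have b3 : 1 ≤ Real.exp (w - w / 16) := Real.one_le_exp (by linarith)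
      have b4 : 2 * Real.exp 1 * Real.exp (w - w / 16) ≤ 6 * Real.exp (w - w / 16) :=
        mul_le_mul_of_nonneg_right (by linarith) (by linarith)
      linarith
    have a2 : (2 * σ * l + 1) * (C * m ^ 3 * l * (2 * Real.exp w / √z + 1)) ≤
        (3 * σ * l) * (C * m ^ 3 * l * (7 * Real.exp (w - w / 16))) := by
      apply mul_le_mul hsig _ (by positivity) (by positivity)
      exact mul_le_mul_of_nonneg_left a1 (by positivity)
    have a3 : (3 * σ * l) * (C * m ^ 3 * l * (7 * Real.exp (w - w / 16))) =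
        1 / 4 * (84 * σ * C * m ^ 3 * l ^ 2) * Real.exp (w - w / 16) := by ring
    have a4 : Real.exp (w / 32) * Real.exp (w - w / 16) ≤ Real.exp w * Real.exp (-(w / 400)) := by
      rw [← Real.exp_add, ← Real.exp_add]
      exact Real.exp_le_exp.2 (by linarith)
    have a5 := mul_le_mul_of_nonneg_right h2 (Real.exp_pos (w - w / 16)).le
    rw [a3] at a2
    linarith
  -- term 3
  have t3 : (2 * σ * l + 1) * (4 * Real.exp w * (√(√z))⁻¹ * Real.exp (C * m ^ 3 * l / P)) ≤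
      1 / 4 * (Real.exp w * Real.exp (-(w / 400))) := by
    have a1 : (√(√z))⁻¹ ≤ 2 * Real.exp (-(w / 32)) := by
      have b1 : (√(√z))⁻¹ ≤ (Real.exp (w / 32 - 1 / 2))⁻¹ := inv_anti₀ (Real.exp_pos _) hssz
      have b2 : (Real.exp (w / 32 - 1 / 2))⁻¹ = Real.exp (1 / 2) * Real.exp (-(w / 32)) := by
        rw [← Real.exp_neg, ← Real.exp_add]
        congr 1
        ring
      have b3 : Real.exp (1 / 2) ≤ 2 := by
        have b4 : Real.exp (1 / 2) * Real.exp (1 / 2) = Real.exp 1 := by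
          rw [← Real.exp_add]
          norm_num
        by_contra hcon
        push Not at hcon
        nlinarith
      rw [b2] at b1
      exact b1.trans (mul_le_mul_of_nonneg_right b3 (Real.exp_pos _).le)
    have a2 : Real.exp (C * m ^ 3 * l / P) ≤ 3 := by
      have b1 : C * m ^ 3 * l / P ≤ 1 := by
        rw [hP, div_le_one (by positivity)]
        calc C * m ^ 3 * l ≤ l ^ 4 * l := mul_le_mul_of_nonneg_right h4 hl0.le
          _ = l ^ 5 := by ring
      have b2 := Real.exp_le_exp.2 b1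
      linarith
    have hinv : 0 ≤ (√(√z))⁻¹ := by positivity
    have a3 : (2 * σ * l + 1) * (4 * Real.exp w * (√(√z))⁻¹ * Real.exp (C * m ^ 3 * l / P)) ≤
        (3 * σ * l) * (4 * Real.exp w * (2 * Real.exp (-(w / 32))) * 3) := by
      apply mul_le_mul hsig _ (by positivity) (by positivity)
      apply mul_le_mul _ a2 (Real.exp_pos _).le (by positivity)
      exact mul_le_mul_of_nonneg_left a1 (by positivity)
    have a4 : (3 * σ * l) * (4 * Real.exp w * (2 * Real.exp (-(w / 32))) * 3) =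
        1 / 4 * (288 * σ * l) * (Real.exp w * Real.exp (-(w / 32))) := by ring
    have a5 : Real.exp (w / 64) * (Real.exp w * Real.exp (-(w / 32))) ≤
        Real.exp w * Real.exp (-(w / 400)) := by
      rw [← Real.exp_add, ← Real.exp_add, ← Real.exp_add]
      exact Real.exp_le_exp.2 (by linarith)
    have a6 := mul_le_mul_of_nonneg_right h3
      (by positivity : 0 ≤ Real.exp w * Real.exp (-(w / 32)))
    rw [a4] at a3
    linarith
  -- term 4
  have t4 : 4 * Real.exp w * Y ≤ 1 / 4 * (Real.exp w * Real.exp (-(e * w / 400))) := by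
    have a1 : 16 * Y ≤ Real.exp (-(e * w / 400)) := by
      have b1 : (16 : ℝ) ≤ Real.exp 3 := by
        have b2 : Real.exp 3 = Real.exp 1 * Real.exp 1 * Real.exp 1 := by
          rw [← Real.exp_add, ← Real.exp_add]
          norm_num
        rw [b2]
        have b3 : 7 ≤ Real.exp 1 * Real.exp 1 := by nlinarith
        nlinarith
      have b2 : 0 < Real.exp (-(e * ((w / 16 - 1) / 10))) * Real.exp X := by
        positivity
      calc 16 * Y ≤ 16 * (Real.exp (-(e * ((w / 16 - 1) / 10))) * Real.exp X) := by linarith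
        _ ≤ Real.exp 3 * (Real.exp (-(e * ((w / 16 - 1) / 10))) * Real.exp X) :=
          mul_le_mul_of_nonneg_right b1 b2.le
        _ = Real.exp (3 + (-(e * ((w / 16 - 1) / 10)) + X)) := by
            rw [Real.exp_add, Real.exp_add]
        _ ≤ Real.exp (-(e * w / 400)) := by
            apply Real.exp_le_exp.2
            nlinarith
    have a2 := mul_le_mul_of_nonneg_left a1 hew.le
    linarith
  have hfin := mul_le_mul_of_nonneg_left hwe hew.le
  linarith

theorem polyexp2 (B a e : ℝ) (n : ℕ) (ha : 0 < a) (he : 0 < e) :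
    ∀ᶠ l : ℝ in atTop, B * l ^ n ≤ Real.exp (a * l ^ (2 * e)) := by
  have h1 := ((tendsto_rpow_mul_exp_neg_mul_atTop_nhds_zero ((n : ℝ) / (2 * e)) a ha).const_mul
    B).comp (tendsto_rpow_atTop (by positivity : 0 < 2 * e))
  rw [mul_zero] at h1
  filter_upwards [h1.eventually_le_const one_pos, eventually_gt_atTop 0] with l hl hl0
  rw [Function.comp_apply, ← Real.rpow_mul hl0.le,
    show 2 * e * ((n : ℝ) / (2 * e)) = n by field_simp, Real.rpow_natCast] at hl
  have h2 : Real.exp (-a * l ^ (2 * e)) * Real.exp (a * l ^ (2 * e)) = 1 := by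
    rw [← Real.exp_add]
    simp
  have h3 := mul_le_mul_of_nonneg_right hl (Real.exp_pos (a * l ^ (2 * e))).le
  calc B * l ^ n = (B * (l ^ n * Real.exp (-a * l ^ (2 * e)))) * Real.exp (a * l ^ (2 * e)) := by
        rw [mul_assoc, mul_assoc, h2, mul_one]
    _ ≤ 1 * Real.exp (a * l ^ (2 * e)) := h3
    _ = Real.exp (a * l ^ (2 * e)) := one_mul _

theorem evlog (B a e : ℝ) (hB : 0 ≤ B) (ha : 0 < a) (he : 0 < e) : ∀ᶠ l : ℝ in atTop,
    B * (l ^ e * (1 + 10 * Real.log l)) + 43 ≤ a * l ^ (2 * e) := by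
  obtain ⟨M, hM⟩ : ∃ M, M = B * (1 + 20 / e) + 43 := ⟨_, rfl⟩
  filter_upwards [(tendsto_rpow_atTop (by positivity : 0 < e / 2)).eventually
    (eventually_ge_atTop (M / a)), eventually_ge_atTop 1] with l hl hl1
  have hl0 : 0 < l := by linarith
  have h1 : l ^ (2 * e) = l ^ (e / 2) * (l ^ (e / 2) * l ^ e) := by
    rw [← Real.rpow_add hl0, ← Real.rpow_add hl0]
    congr 1
    ring
  have h2 : 1 ≤ l ^ (e / 2) := Real.one_le_rpow hl1 (by positivity)
  have h3 : 1 ≤ l ^ e := Real.one_le_rpow hl1 he.le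
  have h4 : 1 ≤ l ^ (e / 2) * l ^ e := by nlinarith
  have h5 : 1 + 10 * Real.log l ≤ (1 + 20 / e) * l ^ (e / 2) := by
    have h6 := Real.log_le_rpow_div hl0.le (by positivity : 0 < e / 2)
    have h7 : 10 * (l ^ (e / 2) / (e / 2)) = 20 / e * l ^ (e / 2) := by
      field_simp
      norm_num
    linarith
  rw [div_le_iff₀ ha] at hl
  calc B * (l ^ e * (1 + 10 * Real.log l)) + 43 ≤
        B * (l ^ e * ((1 + 20 / e) * l ^ (e / 2))) + 43 * (l ^ (e / 2) * l ^ e) := by
        apply add_le_add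
        · apply mul_le_mul_of_nonneg_left _ hB
          exact mul_le_mul_of_nonneg_left h5 (by linarith)
        · linarith
    _ = M * (l ^ (e / 2) * l ^ e) := by rw [hM]; ring
    _ ≤ (l ^ (e / 2) * a) * (l ^ (e / 2) * l ^ e) :=
        mul_le_mul_of_nonneg_right hl (by linarith)
    _ = a * l ^ (2 * e) := by rw [h1]; ring

theorem blku (k : ℕ) (ε e : ℝ) (hε : 0 < ε) (hε1 : ε ≤ 1) (he0 : 0 < e) (he1 : e ≤ 1 / 2) :
    ∃ c : ℝ, 0 < c ∧ c ≤ 1 ∧
    ∃ D₁ : ℝ, 1 ≤ D₁ ∧ ∀ D : ℝ, D₁ ≤ D → ∀ σ : ℝ, 1 ≤ σ → σ ≤ Real.log D ^ (1 / 2 - e) →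
      ∃ L : ℝ, 1 ≤ L ∧
      L ≤ D ^ (ε / (32 * σ ^ 2)) ∧ ∀ (S : ℝ) (P : ℤ[X]), Near k ε D S P →
      (∀ τ : ℤ, |(τ : ℝ)| ≤ L → D ≤ ((P.eval τ : ℤ) : ℝ)) →
      ((WinZ P L (D ^ (c / σ ^ 2)) (D ^ σ)).ncard : ℝ) ≤ L * D ^ (-(c / σ ^ 2)) := by
  obtain ⟨C, hC, hCε, hW⟩ := winp k ε hε hε1
  have hk0 : (0 : ℝ) ≤ k := Nat.cast_nonneg k
  refine ⟨e / (32000 * C), by positivity, ?_, ?_⟩
  · rw [div_le_one (by positivity)]
    linarith
  obtain ⟨D₁, hD₁⟩ := Filter.eventually_atTop.1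
    ((eventually_ge_atTop C).and
      (Real.tendsto_log_atTop.eventually
        (((eventually_ge_atTop (1000 * C ^ 4 + 3)).and
          ((tendsto_rpow_atTop (by positivity : 0 < 2 * e)).eventually
            (eventually_ge_atTop (1280 * C + 10 * C ^ 2)))).and
        ((polyexp2 (12000000 * C ^ 7) (1 / (640 * C)) e 11 (by positivity) he0).and
        ((polyexp2 (84000 * C ^ 4) (1 / (2560 * C)) e 6 (by positivity) he0).and
        ((polyexp2 288 (1 / (5120 * C)) e 2 (by positivity) he0).and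
        (evlog k (e / (128000 * C)) e hk0 (by positivity) he0)))))))
  refine ⟨max 1 D₁, le_max_left _ _, fun D hD σ hσ1 hσD => ?_⟩
  obtain ⟨hDC, ⟨hl5, hlu⟩, h1, h2, h3, h5⟩ := hD₁ D ((le_max_right _ _).trans hD)
  have hD1 : 1 ≤ D := (le_max_left _ _).trans hD
  have hD0 : 0 < D := by linarith
  obtain ⟨l, hl⟩ : ∃ l, l = Real.log D := ⟨_, rfl⟩
  rw [← hl] at hl5 hlu h1 h2 h3 h5 hσD
  obtain ⟨u, hu⟩ : ∃ u, u = l ^ (2 * e) := ⟨_, rfl⟩
  rw [← hu] at hlu h1 h2 h3 h5
  have hC0 : 0 < C := by linarith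
  have hC4 : 0 ≤ C ^ 4 := by positivity
  have hl3 : 3 ≤ l := by linarith
  have hl1 : 1 ≤ l := by linarith
  have hl0 : 0 < l := by linarith
  have hs1 : 1 ≤ σ ^ 2 := one_le_pow₀ hσ1
  have hs0 : 0 < σ ^ 2 := by positivity
  have hsu : σ ^ 2 * u ≤ l := by
    have h6 : σ ^ 2 ≤ (l ^ (1 / 2 - e)) ^ 2 := pow_le_pow_left₀ (by linarith) hσD 2
    have h7 : (l ^ (1 / 2 - e)) ^ 2 * u = l := by
      rw [hu, ← Real.rpow_natCast, ← Real.rpow_mul hl0.le, ← Real.rpow_add hl0]
      norm_num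
      rw [show (1 / 2 - e) * 2 + 2 * e = 1 by ring, Real.rpow_one]
    have hu0 : 0 ≤ u := by rw [hu]; positivity
    calc σ ^ 2 * u ≤ (l ^ (1 / 2 - e)) ^ 2 * u := mul_le_mul_of_nonneg_right h6 hu0
      _ = l := h7
  have hu0 : 0 < u := by rw [hu]; positivity
  have hC20 : 0 ≤ 10 * C ^ 2 := by positivity
  have hu1 : 1 ≤ u := by linarith
  have hsl : σ ^ 2 ≤ l := by nlinarith
  have hσl : σ ≤ l := by nlinarith
  obtain ⟨m, hm⟩ : ∃ m : ℕ, m = ⌈C * (2 * σ + 1) ^ 2⌉₊ := ⟨_, rfl⟩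
  have hmlo : C * (2 * σ + 1) ^ 2 ≤ m := by rw [hm]; exact Nat.le_ceil _
  have hs9 : (2 * σ + 1) ^ 2 ≤ 9 * σ ^ 2 := by nlinarith
  have hs9' : 9 ≤ (2 * σ + 1) ^ 2 := by nlinarith
  have hCs : σ ^ 2 ≤ C * σ ^ 2 := le_mul_of_one_le_left (by positivity) hC
  have hmhi : (m : ℝ) ≤ 10 * C * σ ^ 2 := by
    have h6 : (m : ℝ) < C * (2 * σ + 1) ^ 2 + 1 := by
      rw [hm]
      exact Nat.ceil_lt_add_one (by positivity)
    have h7 : C * (2 * σ + 1) ^ 2 ≤ C * (9 * σ ^ 2) := mul_le_mul_of_nonneg_left hs9 (by linarith)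
    linarith
  have hmC : 9 * C ≤ m := by
    have h7 : C * 9 ≤ C * (2 * σ + 1) ^ 2 := mul_le_mul_of_nonneg_left hs9' (by linarith)
    linarith
  have hm1 : (1 : ℝ) ≤ m := by linarith
  have hm0 : (0 : ℝ) < m := by linarith
  have hml : (m : ℝ) ≤ 10 * C * l := hmhi.trans (mul_le_mul_of_nonneg_left hsl (by positivity))
  have hCm : C * m ≤ l := by
    calc C * (m : ℝ) ≤ C * (10 * C * σ ^ 2) := mul_le_mul_of_nonneg_left hmhi hC0.le
      _ = σ ^ 2 * (10 * C ^ 2) := by ring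
      _ ≤ σ ^ 2 * u := mul_le_mul_of_nonneg_left (by linarith) hs0.le
      _ ≤ l := hsu
  have hm3 : (m : ℝ) ^ 3 ≤ (10 * C * l) ^ 3 := pow_le_pow_left₀ hm0.le hml 3
  have hm6 : (m : ℝ) ^ 6 ≤ (10 * C * l) ^ 6 := pow_le_pow_left₀ hm0.le hml 6
  have h4 : C * (m : ℝ) ^ 3 ≤ l ^ 4 := by
    calc C * (m : ℝ) ^ 3 ≤ C * (10 * C * l) ^ 3 := mul_le_mul_of_nonneg_left hm3 hC0.le
      _ = (1000 * C ^ 4) * l ^ 3 := by ring
      _ ≤ l * l ^ 3 := mul_le_mul_of_nonneg_right (by linarith) (by positivity)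
      _ = l ^ 4 := by ring
  have hDl : D = Real.exp l := by rw [hl, Real.exp_log hD0]
  obtain ⟨w, hw⟩ : ∃ w, w = l / (8 * m) := ⟨_, rfl⟩
  have hwσ : l / (80 * C * σ ^ 2) ≤ w := by
    rw [hw]
    apply div_le_div_of_nonneg_left hl0.le (by positivity)
    linarith
  have hwu : u / (80 * C) ≤ w := by
    refine le_trans ?_ hwσ
    rw [div_le_div_iff₀ (by positivity) (by positivity)]
    have h6 := mul_le_mul_of_nonneg_left hsu (by positivity : 0 ≤ 80 * C)
    linarith
  have hw0 : 0 < w := by rw [hw]; positivity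
  have hwl : w ≤ l / 8 := by
    rw [hw]
    apply div_le_div_of_nonneg_left hl0.le (by norm_num)
    linarith
  have hw16 : 16 ≤ w := by
    refine le_trans ?_ hwu
    rw [le_div_iff₀ (by positivity)]
    linarith
  have hw8' : 1 / (640 * C) * u ≤ w / 8 := by
    have h6 : 1 / (640 * C) * u = u / (80 * C) / 8 := by
      field_simp
      norm_num
    rw [h6]
    linarith
  have hw32 : 1 / (2560 * C) * u ≤ w / 32 := by
    have h6 : 1 / (2560 * C) * u = u / (80 * C) / 32 := by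
      field_simp
      norm_num
    rw [h6]
    linarith
  have hw64 : 1 / (5120 * C) * u ≤ w / 64 := by
    have h6 : 1 / (5120 * C) * u = u / (80 * C) / 64 := by
      field_simp
      norm_num
    rw [h6]
    linarith
  have k1 : 12 * σ * C * (m : ℝ) ^ 6 * l ^ 4 ≤ Real.exp (w / 8) := by
    calc 12 * σ * C * (m : ℝ) ^ 6 * l ^ 4 ≤ 12 * l * C * (10 * C * l) ^ 6 * l ^ 4 := by gcongr
      _ = 12000000 * C ^ 7 * l ^ 11 := by ring
      _ ≤ Real.exp (1 / (640 * C) * u) := h1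
      _ ≤ Real.exp (w / 8) := Real.exp_le_exp.2 hw8'
  have k2 : 84 * σ * C * (m : ℝ) ^ 3 * l ^ 2 ≤ Real.exp (w / 32) := by
    calc 84 * σ * C * (m : ℝ) ^ 3 * l ^ 2 ≤ 84 * l * C * (10 * C * l) ^ 3 * l ^ 2 := by gcongr
      _ = 84000 * C ^ 4 * l ^ 6 := by ring
      _ ≤ Real.exp (1 / (2560 * C) * u) := h2
      _ ≤ Real.exp (w / 32) := Real.exp_le_exp.2 hw32
  have k3 : 288 * σ * l ≤ Real.exp (w / 64) := by
    calc 288 * σ * l ≤ 288 * l * l := by gcongr
      _ = 288 * l ^ 2 := by ring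
      _ ≤ Real.exp (1 / (5120 * C) * u) := h3
      _ ≤ Real.exp (w / 64) := Real.exp_le_exp.2 hw64
  obtain ⟨g, hg⟩ : ∃ g, g = Real.log l := ⟨_, rfl⟩
  rw [← hg] at h5
  have hg1 : 1 ≤ g := by
    rw [hg, Real.le_log_iff_exp_le hl0]
    have := Real.exp_one_lt_d9
    linarith
  have hg0 : 0 < g := by linarith
  have k5 : (k : ℝ) * (l ^ e * (1 + 10 * g)) + 43 ≤ e * w / 1600 := by
    refine h5.trans ?_
    have h6 : e / (128000 * C) * u = e * (u / (80 * C)) / 1600 := by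
      field_simp
      norm_num
    rw [h6]
    have h7 := mul_le_mul_of_nonneg_left hwu he0.le
    linarith
  obtain ⟨K, hK⟩ : ∃ K : ℕ, K = ⌊(w / 16 - 1) / (10 * g)⌋₊ := ⟨_, rfl⟩
  have hw8 : 0 ≤ w / 16 - 1 := by linarith
  have hK1 : (K : ℝ) * (10 * g) ≤ w / 16 - 1 := by
    rw [← le_div_iff₀ (by positivity), hK]
    exact Nat.floor_le (by positivity)
  have hK2 : (w / 16 - 1) / (10 * g) ≤ ((K + 1 : ℕ) : ℝ) := by
    rw [hK]
    push_cast
    exact (Nat.lt_floor_add_one _).le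
  have hL : D ^ (1 / (8 * (m : ℝ))) = Real.exp w := by
    rw [Real.rpow_def_of_pos hD0, ← hl, hw]
    congr 1
    ring
  have hL2 : D ^ (1 / (16 * (m : ℝ))) = Real.exp (w / 2) := by
    rw [Real.rpow_def_of_pos hD0, ← hl, hw]
    congr 1
    field_simp
    norm_num
  have hP : ∀ j : ℕ, (l ^ 10) ^ j = Real.exp ((j : ℝ) * (10 * g)) := by
    intro j
    have h6 : l ^ 10 = Real.exp (10 * g) := by
      rw [hg, show (10 : ℝ) = ((10 : ℕ) : ℝ) by norm_num, ← Real.log_pow,
        Real.exp_log (by positivity)]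
    rw [h6, ← Real.exp_nat_mul]
  have hsP : √(l ^ 10) = l ^ 5 := by
    rw [show l ^ 10 = (l ^ 5) ^ 2 by ring]
    exact Real.sqrt_sq (by positivity)
  have hlogP : Real.log (l ^ 10) = 10 * g := by
    rw [Real.log_pow, ← hg]
    norm_num
  have hs : 1 ≤ l ^ e := Real.one_le_rpow hl1 he0.le
  have hlogl : g ≤ l - 1 := by rw [hg]; exact Real.log_le_sub_one_of_pos hl0
  -- the square root of z
  have hsz : Real.exp (w / 16 - 1) ≤ √(Real.exp (w / 8) / 2) := by
    apply Real.le_sqrt_of_sq_le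
    rw [← Real.exp_nat_mul]
    push_cast
    have h6 : Real.exp (w / 8) = Real.exp (2 * (w / 16 - 1)) * Real.exp 2 := by
      rw [← Real.exp_add]
      congr 1
      ring
    have h7 := Real.add_one_le_exp (2 : ℝ)
    rw [h6, le_div_iff₀ (by norm_num)]
    have h8 : 0 < Real.exp (2 * (w / 16 - 1)) := Real.exp_pos _
    exact mul_le_mul_of_nonneg_left (by linarith) h8.le
  refine ⟨Real.exp w, Real.one_le_exp hw0.le, ?_, ?_⟩
  · rw [← hL]
    apply Real.rpow_le_rpow_of_exponent_le hD1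
    have h6 : 1 / ε * (4 * σ ^ 2) ≤ m := by
      calc 1 / ε * (4 * σ ^ 2) ≤ C * (4 * σ ^ 2) := mul_le_mul_of_nonneg_right hCε (by positivity)
        _ ≤ C * (2 * σ + 1) ^ 2 := mul_le_mul_of_nonneg_left (by nlinarith) (by linarith)
        _ ≤ m := hmlo
    rw [div_mul_eq_mul_div, one_mul, div_le_iff₀ hε] at h6
    rw [div_le_div_iff₀ (by positivity) (by positivity)]
    linarith
  intro S P hN hlD
  -- the bound for the logarithm of `P₀`
  have hgw : 10 * g ≤ w / 16 + 1 := by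
    have h6 : Real.exp (6 * g) ≤ Real.exp (w / 32) := by
      have h7 : Real.exp (6 * g) = l ^ 6 := by
        rw [hg, show (6 : ℝ) * Real.log l = ((6 : ℕ) : ℝ) * Real.log l by norm_num,
          ← Real.log_pow, Real.exp_log (by positivity)]
      rw [h7]
      refine le_trans ?_ (h2.trans (Real.exp_le_exp.2 hw32))
      have h8 : 1 ≤ 84000 * C ^ 4 := by
        have h9 : 1 ≤ C ^ 4 := one_le_pow₀ hC
        linarith
      exact le_mul_of_one_le_left (by positivity) h8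
    have h7 := Real.exp_le_exp.1 h6
    linarith
  have hT := hW D σ (Real.exp (w / 8) / 2) (Real.exp (w / 4)) (l ^ 10) (l ^ e) S
    (Real.exp w) m K P hDC (by linarith) hmlo
    (by rw [← hl]; exact hCm)
    (by
      have h6 := Real.add_one_le_exp (w / 8)
      linarith)
    (by
      have h6 : Real.exp (w / 4) = Real.exp (w / 8) * Real.exp (w / 8) := by
        rw [← Real.exp_add]
        congr 1
        ring
      rw [h6]
      apply le_of_eq
      ring)
    (by
      rw [Real.rpow_def_of_pos hD0, ← hl]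
      exact Real.exp_le_exp.2 (by linarith))
    (one_le_pow₀ hl1)
    (by
      rw [hP]
      exact (Real.exp_le_exp.2 hK1).trans hsz) hL.symm
    (by
      rw [hP]
      have h6 : Real.exp (((K + 1 : ℕ) : ℝ) * (10 * g)) ≤ Real.exp w := by
        apply Real.exp_le_exp.2
        push_cast
        nlinarith
      have := Real.exp_pos w
      linarith)
    (by
      have h6 : Real.exp (w / 8) ≤ Real.exp w := Real.exp_le_exp.2 (by linarith)
      have := Real.exp_pos w
      linarith)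
    hs hN hlD
  rw [hL2, ← hl, hsP, hlogP] at hT
  have hY : ((l ^ e) ^ (K + 1))⁻¹ *
      Real.exp (l ^ e * k * (1 + 10 * g)) ≤
      Real.exp (-(e * ((w / 16 - 1) / 10))) * Real.exp (k * (l ^ e * (1 + 10 * g))) := by
    apply mul_le_mul _ _ (Real.exp_pos _).le (Real.exp_pos _).le
    · rw [Real.exp_neg]
      apply inv_anti₀ (Real.exp_pos _)
      have h6 : (l ^ e) ^ (K + 1) = Real.exp (((K + 1 : ℕ) : ℝ) * (e * g)) := by
        rw [Real.exp_nat_mul]
        congr 1
        rw [Real.rpow_def_of_pos hl0, ← hg]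
        congr 1
        ring
      rw [h6]
      apply Real.exp_le_exp.2
      rw [div_le_iff₀ (by positivity)] at hK2
      have h7 : (w / 16 - 1) / 10 ≤ ((K + 1 : ℕ) : ℝ) * g := by linarith
      calc e * ((w / 16 - 1) / 10) ≤ e * (((K + 1 : ℕ) : ℝ) * g) :=
            mul_le_mul_of_nonneg_left h7 he0.le
        _ = ((K + 1 : ℕ) : ℝ) * (e * g) := by ring
    · apply Real.exp_le_exp.2
      apply le_of_eq
      ring
  have hpar := params3 (C := C) (l := l) (w := w) (σ := σ) (m := m)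
    (z := Real.exp (w / 8) / 2) (P := l ^ 5) hC hl1 hσ1 hm1 he0 (by linarith) rfl hw16 k1 k2 k3 h4
    rfl k5 hY
  have hcw : l * (e / (32000 * C) / σ ^ 2) ≤ e * w / 400 := by
    have h6 : l * (e / (32000 * C) / σ ^ 2) = e * (l / (80 * C * σ ^ 2)) / 400 := by
      field_simp
      norm_num
    rw [h6]
    have h7 := mul_le_mul_of_nonneg_left hwσ he0.le
    linarith
  have hcw4 : l * (e / (32000 * C) / σ ^ 2) ≤ w / 4 := by
    refine hcw.trans ?_
    nlinarith
  have hsub : (WinZ P (Real.exp w) (D ^ (e / (32000 * C) / σ ^ 2)) (D ^ σ)).ncard ≤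
      (WinZ P (Real.exp w) (Real.exp (w / 4)) (D ^ σ)).ncard := by
    apply Set.ncard_le_ncard _ (winZ_finite _ _ _ _)
    rintro τ ⟨h7, h8, x, y, h9, h10, h11⟩
    refine ⟨h7, h8, x, y, h9, h10.trans ?_, h11⟩
    rw [Real.rpow_def_of_pos hD0, ← hl]
    apply Real.exp_le_exp.2
    linarith
  have hsub' : ((WinZ P (Real.exp w) (D ^ (e / (32000 * C) / σ ^ 2)) (D ^ σ)).ncard : ℝ) ≤
      (WinZ P (Real.exp w) (Real.exp (w / 4)) (D ^ σ)).ncard := by exact_mod_cast hsub
  refine hsub'.trans (hT.trans (le_trans (le_of_eq ?_) (hpar.trans ?_)))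
  · ring
  · apply mul_le_mul_of_nonneg_left _ (Real.exp_pos _).le
    rw [Real.rpow_def_of_pos hD0, ← hl]
    apply Real.exp_le_exp.2
    linarith

end Pool.Agent.H45.PU
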