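import Pool.Agent.H45.PU.COVU
import Pool.Agent.H45.PS.FINP

/-! Regulators, class numbers and small norms, uniformly in the size. -/

set_option autoImplicit false

namespace Pool.Agent.H45.PU

open Polynomial Pool.Agent.Q276.PL Pool.Agent.H45.PF Pool.Agent.H45.NF Pool.Agent.H45.PS Filter
  Topology NumberField Pool.Agent.H45.RQ
open Pool.Agent.H38R2.CG (Lone)
open Pool.Agent.Q149.PL (isFund_dsc dsc_le le_dsc dsc_or)

theorem finalU (k B : ℕ) (hk : Odd k) (e : ℝ) (he0 : 0 < e) (he1 : e ≤ 1 / 2) :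
    ∃ c C : ℝ, 0 < c ∧
    (∃ N₀ : ℕ, ∀ N ≥ N₀, ∀ A : ℝ, 1 ≤ A → A ≤ Real.log N ^ (1 / 2 - e) →
      ∀ f : ℤ[X], Dom k B N f → ∀ H : ℕ, (N : ℝ) ^ (1 / A ^ 2) ≤ H → H ≤ N →
      ({n : ℕ | N < n ∧ n ≤ N + H ∧ Exc N A c C (f.eval (n : ℤ))}.ncard : ℝ) ≤
        H * (N : ℝ) ^ (-(c / A ^ 2))) ∧
    ∀ f : ℤ[X], ∀ N₁ : ℕ, (∀ N ≥ N₁, Dom k B N f) → ∃ N₀ : ℕ, ∀ N ≥ N₀,
      ∀ A : ℝ, 1 ≤ A → A ≤ Real.log N ^ (1 / 2 - e) →
      ({n : ℕ | n ≤ N ∧ Exc N A c C (f.eval (n : ℤ))}.ncard : ℝ) ≤ (N : ℝ) ^ (1 - c / A ^ 2) := by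
  obtain ⟨c, hc0, hc1, hint, hone⟩ := allU k B hk (e / 2) (by positivity) (by linarith)
  obtain ⟨C₀, hC1, hC₀⟩ := lone_le
  obtain ⟨N₂, hN₂⟩ := Filter.eventually_atTop.1
    ((tendsto_natCast_atTop_atTop (R := ℝ)).eventually (eventually_ge_atTop 3) |>.and
      (((nlim 1 one_pos).eventually (eventually_ge_atTop 4)).and
      ((Real.tendsto_log_atTop.comp (tendsto_natCast_atTop_atTop (R := ℝ))).eventually
        (up e 6 he0 he1))))
  have h6 : ∀ N : ℕ, N₂ ≤ N → ∀ A : ℝ, A ≤ Real.log N ^ (1 / 2 - e) →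
      6 * A ≤ Real.log N ^ (1 / 2 - e / 2) := by
    intro N hN A hA
    obtain ⟨-, h4, h5⟩ := hN₂ N hN
    rw [Function.comp_apply] at h5
    rw [Real.rpow_one] at h4
    exact (mul_le_mul_of_nonneg_left hA (by norm_num)).trans (h5 _ (by linarith))
  refine ⟨c / 36, C₀ * (2 * ((B : ℝ) + k) + 4), by positivity, ?_, ?_⟩
  · obtain ⟨N₀, hN₀⟩ := hint
    refine ⟨max N₀ N₂, fun N hN A hA hAN f hf H hH1 hH2 => ?_⟩
    have hA2 : 1 ≤ A ^ 2 := one_le_pow₀ hA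
    have hcA : c / (6 * A) ^ 2 = c / 36 / A ^ 2 := by
      field_simp
      norm_num
    obtain ⟨h3, h4, -⟩ := hN₂ N ((le_max_right _ _).trans hN)
    rw [Real.rpow_one] at h4
    have hN1 : (1 : ℝ) ≤ N := by linarith
    have h5 := hN₀ N ((le_max_left _ _).trans hN) (6 * A) (by linarith)
      (h6 N ((le_max_right _ _).trans hN) A hAN) f hf H (by
      refine le_trans ?_ hH1
      apply Real.rpow_le_rpow_of_exponent_le hN1
      apply div_le_div_of_nonneg_left (by norm_num) (by positivity)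
      nlinarith) hH2
    rw [hcA] at h5
    refine le_trans ?_ h5
    have h6 := Set.ncard_le_ncard (s := {n : ℕ | N < n ∧ n ≤ N + H ∧
      Exc N A (c / 36) (C₀ * (2 * ((B : ℝ) + k) + 4)) (f.eval (n : ℤ))})
      (t := BadZ f N H ((N : ℝ) ^ (c / 36 / A ^ 2)) ((N : ℝ) ^ (6 * A))) ?_ (badZ_finite _ _ _ _ _)
    · exact_mod_cast h6
    rintro n ⟨h7, h8, h9⟩
    exact ⟨h7, h8, exc_sol hC1 hC₀ hf h3 h4 hA (by positivity) (by omega) h9⟩
  · intro f N₁ hf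
    obtain ⟨N₀, hN₀⟩ := hone f N₁ hf
    refine ⟨max N₁ (max N₀ N₂), fun N hN A hA hAN => ?_⟩
    have hA2 : 1 ≤ A ^ 2 := one_le_pow₀ hA
    have hcA : c / (6 * A) ^ 2 = c / 36 / A ^ 2 := by
      field_simp
      norm_num
    have hNN := (le_max_right _ _).trans hN
    obtain ⟨h3, h4, -⟩ := hN₂ N ((le_max_right _ _).trans hNN)
    rw [Real.rpow_one] at h4
    have h5 := hN₀ N ((le_max_left _ _).trans hNN) (6 * A) (by linarith)
      (h6 N ((le_max_right _ _).trans hNN) A hAN)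
    rw [hcA] at h5
    refine le_trans ?_ h5
    have h6 := Set.ncard_le_ncard (s := {n : ℕ | n ≤ N ∧
      Exc N A (c / 36) (C₀ * (2 * ((B : ℝ) + k) + 4)) (f.eval (n : ℤ))})
      (t := AllZ f N ((N : ℝ) ^ (c / 36 / A ^ 2)) ((N : ℝ) ^ (6 * A))) ?_ (allZ_finite _ _ _ _)
    · exact_mod_cast h6
    rintro n ⟨h8, h9⟩
    exact ⟨h8, exc_sol hC1 hC₀ (hf N ((le_max_left _ _).trans hN)) h3 h4 hA (by positivity)
      (by omega) h9⟩

end Pool.Agent.H45.PU
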